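import Pool.Agent.Helper93.Plz.PL

set_option autoImplicit false

/-!
# The cost of a planarization of a subcubic graph (MP_8e7d5e_co)
-/

namespace Pool.Agent.Helper93.Plz

variable {V : Type} [DecidableEq V]

/-- The sets of four pairwise adjacent vertices. -/
def IsK4 (H : SimpleGraph V) (U Z : Finset V) : Prop :=
  Z ⊆ U ∧ Z.card = 4 ∧ ∀ x ∈ Z, ∀ y ∈ Z, x ≠ y → H.Adj x y

open Classical in
/-- The family of the `K_4`. -/
noncomputable def K4s (H : SimpleGraph V) (U : Finset V) : Finset (Finset V) :=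
  U.powerset.filter fun Z => IsK4 H U Z

omit [DecidableEq V] in
theorem mem_K4s {H : SimpleGraph V} {U Z : Finset V} : Z ∈ K4s H U ↔ IsK4 H U Z := by
  classical
  rw [K4s, Finset.mem_filter, Finset.mem_powerset]
  exact ⟨fun h => h.2, fun h => ⟨h.1, h⟩⟩

/-- The vertices outside the `K_4`. -/
noncomputable def U0 (H : SimpleGraph V) (U : Finset V) : Finset V := U \ (K4s H U).biUnion id

/-- The vertices of degree 3 outside the `K_4`. -/
noncomputable def Bs (H : SimpleGraph V) (U : Finset V) : Finset V := B3 H U ∩ U0 H U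

theorem U0_sub (H : SimpleGraph V) (U : Finset V) : U0 H U ⊆ U := Finset.sdiff_subset

theorem not_mem_of_mem_U0 {H : SimpleGraph V} {U Z : Finset V} {x : V} (hx : x ∈ U0 H U)
    (hZ : IsK4 H U Z) : x ∉ Z := fun h =>
  (Finset.mem_sdiff.mp hx).2 (Finset.mem_biUnion.mpr ⟨Z, mem_K4s.mpr hZ, h⟩)

theorem nb_U0 {H : SimpleGraph V} {U : Finset V} (hsub : ∀ x ∈ U, dg H U x ≤ 3) {x : V}
    (hx : x ∈ U0 H U) : nb H (U0 H U) x = nb H U x := by
  refine Finset.Subset.antisymm (nb_mono (U0_sub H U) x) ?_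
  intro y hy
  rw [mem_nb] at hy ⊢
  refine ⟨Finset.mem_sdiff.mpr ⟨hy.1, fun hy' => ?_⟩, hy.2⟩
  obtain ⟨Z, hZ, hyZ⟩ := Finset.mem_biUnion.mp hy'
  have hZ' := mem_K4s.mp hZ
  exact k4_comp hsub hZ'.1 hZ'.2.1 hZ'.2.2 y hyZ x (U0_sub H U hx) (not_mem_of_mem_U0 hx hZ')
    hy.2.symm

theorem K4free_U0 (H : SimpleGraph V) (U : Finset V) : K4free H (U0 H U) := by
  intro Z hZ hZ4 hadj
  have hZne : Z.Nonempty := by rw [← Finset.card_pos]; omega
  obtain ⟨z, hz⟩ := hZne
  exact not_mem_of_mem_U0 (hZ hz) ⟨hZ.trans (U0_sub H U), hZ4, hadj⟩ hz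

/-- Adding the `K_4` components back. -/
theorem plS_comps {H : SimpleGraph V} {U : Finset V} (hsub : ∀ x ∈ U, dg H U x ≤ 3)
    (ZZ : Finset (Finset V)) :
    (∀ Z ∈ ZZ, IsK4 H U Z) → ∀ S : Finset V, S ⊆ U →
      PlS H ((S \ ZZ.biUnion id : Finset V) : Set V) → PlS H (S : Set V) := by
  classical
  induction ZZ using Finset.induction_on with
  | empty =>
    intro _ S _ h
    simpa using h
  | insert Z ZZ hZ ih =>
    intro hK S hS h
    refine ih (fun Z' hZ' => hK Z' (Finset.mem_insert_of_mem hZ')) S hS ?_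
    have hZK := hK Z (Finset.mem_insert_self _ _)
    refine plS_comp (Z := Z) hZK.2.1.le ?_ ?_
    · intro z hz y hy hyZ
      exact k4_comp hsub hZK.1 hZK.2.1 hZK.2.2 z hz y
        (hS (Finset.mem_sdiff.mp (Finset.mem_coe.mp hy)).1) hyZ
    · have he : ((S \ ZZ.biUnion id : Finset V) : Set V) \ (Z : Set V) =
          ((S \ (insert Z ZZ).biUnion id : Finset V) : Set V) := by
        ext x
        simp only [Finset.biUnion_insert, Set.mem_sdiff, Finset.mem_coe, Finset.mem_sdiff,
          Finset.mem_union, id]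
        tauto
      rw [he]
      exact h

/-- A triangle of vertices of degree 3 outside the `K_4`. -/
def FT (H : SimpleGraph V) (U T : Finset V) : Prop := Tri H U T ∧ T ⊆ U0 H U

theorem planarize {H : SimpleGraph V} {U : Finset V} (hsub : ∀ x ∈ U, dg H U x ≤ 3)
    (TT : Finset (Finset V)) (hT : ∀ T ∈ TT, FT H U T) (hd : PD TT) :
    ∃ R ⊆ U, PlS H ((U \ R : Finset V) : Set V) ∧ 4 * R.card + TT.card ≤ (Bs H U).card := by
  classical
  have hsub0 : ∀ x ∈ U0 H U, dg H (U0 H U) x ≤ 3 := fun x hx =>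
    (dg_mono (U0_sub H U) x).trans (hsub x (U0_sub H U hx))
  have hdg : ∀ x ∈ U0 H U, dg H (U0 H U) x = dg H U x := fun x hx => by
    rw [dg, dg, nb_U0 hsub hx]
  obtain ⟨R, hR, hp, hc⟩ := good_of_k4free (U0 H U).card H (U0 H U) rfl hsub0 (K4free_U0 H U) TT
    (fun T hT' => ⟨(hT T hT').2, (hT T hT').1.card, (hT T hT').1.adj, fun x hx => by
      rw [hdg x ((hT T hT').2 hx)]; exact (hT T hT').1.deg x hx⟩) hd
  refine ⟨R, hR.trans (U0_sub H U), ?_, ?_⟩
  · refine plS_comps hsub (K4s H U) (fun Z hZ => mem_K4s.mp hZ) _ Finset.sdiff_subset ?_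
    have he : ((U \ R) \ (K4s H U).biUnion id : Finset V) = U0 H U \ R := by
      ext x
      simp only [U0, Finset.mem_sdiff]
      tauto
    rw [he]
    exact hp
  · refine hc.trans (Finset.card_le_card ?_)
    intro x hx
    obtain ⟨hx1, hx2⟩ := mem_B3.mp hx
    exact Finset.mem_inter.mpr ⟨mem_B3.mpr ⟨U0_sub H U hx1, by rw [← hdg x hx1]; exact hx2⟩, hx1⟩

/-- Two different triangles that meet share exactly two vertices. -/
theorem inter_two {H : SimpleGraph V} {U T T' : Finset V} (hT : Tri H U T) (hT' : Tri H U T')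
    (hne : T ≠ T') {x : V} (hx : x ∈ T) (hx' : x ∈ T') : (T ∩ T').card = 2 := by
  have h1 : (T ∩ T').card ≤ 2 := by
    by_contra hcon
    push Not at hcon
    have h2 : T ∩ T' = T := Finset.eq_of_subset_of_card_le Finset.inter_subset_left
      (by rw [hT.card]; omega)
    have h3 : T ∩ T' = T' := Finset.eq_of_subset_of_card_le Finset.inter_subset_right
      (by rw [hT'.card]; omega)
    exact hne (h2.symm.trans h3)
  have h2 : T.erase x ∪ T'.erase x ⊆ nb H U x := by
    intro y hy
    rw [mem_nb]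
    rcases Finset.mem_union.mp hy with h | h
    · exact ⟨hT.sub (Finset.mem_of_mem_erase h),
        hT.adj x hx y (Finset.mem_of_mem_erase h) (Finset.ne_of_mem_erase h).symm⟩
    · exact ⟨hT'.sub (Finset.mem_of_mem_erase h),
        hT'.adj x hx' y (Finset.mem_of_mem_erase h) (Finset.ne_of_mem_erase h).symm⟩
  have h3 := Finset.card_le_card h2
  have h4 : (nb H U x).card = 3 := hT.deg x hx
  have h5 := Finset.card_union_add_card_inter (T.erase x) (T'.erase x)
  have h6 : (T.erase x).card = 2 := by rw [Finset.card_erase_of_mem hx, hT.card]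
  have h7 : (T'.erase x).card = 2 := by rw [Finset.card_erase_of_mem hx', hT'.card]
  have h8 : insert x (T.erase x ∩ T'.erase x) ⊆ T ∩ T' := by
    intro y hy
    rcases Finset.mem_insert.mp hy with h | h
    · rw [h]; exact Finset.mem_inter.mpr ⟨hx, hx'⟩
    · obtain ⟨ha, hb⟩ := Finset.mem_inter.mp h
      exact Finset.mem_inter.mpr ⟨Finset.mem_of_mem_erase ha, Finset.mem_of_mem_erase hb⟩
  have h9 := Finset.card_le_card h8
  rw [Finset.card_insert_of_notMem (fun h => Finset.notMem_erase x T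
    (Finset.mem_inter.mp h).1)] at h9
  omega

/-- The common edge of a triangle with all the triangles that meet it. -/
theorem exists_edge {H : SimpleGraph V} {U T : Finset V} (hT : FT H U T) :
    ∃ e ⊆ T, e.card = 2 ∧ ∀ T', FT H U T' → ¬ Disjoint T' T → e ⊆ T' := by
  classical
  by_cases hex : ∃ T', FT H U T' ∧ T' ≠ T ∧ ¬ Disjoint T' T
  · obtain ⟨T', hT', hne, hmeet⟩ := hex
    obtain ⟨x, hx', hx⟩ := Finset.not_disjoint_iff.mp hmeet
    have hc := inter_two hT.1 hT'.1 hne.symm hx hx'
    refine ⟨T ∩ T', Finset.inter_subset_left, hc, ?_⟩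
    intro T'' hT'' hmeet''
    by_cases h1 : T'' = T
    · rw [h1]; exact Finset.inter_subset_left
    obtain ⟨y, hy', hy⟩ := Finset.not_disjoint_iff.mp hmeet''
    have hc' := inter_two hT.1 hT''.1 (Ne.symm h1) hy hy'
    by_contra hcon
    have hne2 : T ∩ T' ≠ T ∩ T'' := fun he => hcon (by rw [he]; exact Finset.inter_subset_right)
    -- the union of the two edges is `T`
    have hun : T ∩ T' ∪ T ∩ T'' = T := by
      refine Finset.eq_of_subset_of_card_le
        (Finset.union_subset Finset.inter_subset_left Finset.inter_subset_left) ?_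
      rw [hT.1.card]
      by_contra hlt
      push Not at hlt
      have h2 : T ∩ T' = T ∩ T' ∪ T ∩ T'' := Finset.eq_of_subset_of_card_le
        Finset.subset_union_left (by omega)
      have h3 : T ∩ T'' = T ∩ T' ∪ T ∩ T'' := Finset.eq_of_subset_of_card_le
        Finset.subset_union_right (by omega)
      exact hne2 (h2.trans h3.symm)
    have h5 := Finset.card_union_add_card_inter (T ∩ T') (T ∩ T'')
    rw [hun, hT.1.card, hc, hc'] at h5
    obtain ⟨q, hq⟩ : (T ∩ T' ∩ (T ∩ T'')).Nonempty := by rw [← Finset.card_pos]; omega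
    have hqT : q ∈ T := (Finset.mem_inter.mp (Finset.mem_inter.mp hq).1).1
    have hqT' : q ∈ T' := (Finset.mem_inter.mp (Finset.mem_inter.mp hq).1).2
    have hqT'' : q ∈ T'' := (Finset.mem_inter.mp (Finset.mem_inter.mp hq).2).2
    -- the third vertices
    have h6 : (T' \ T).card = 1 := by
      have := Finset.card_inter_add_card_sdiff T' T
      rw [Finset.inter_comm, hc, hT'.1.card] at this
      omega
    have h7 : (T'' \ T).card = 1 := by
      have := Finset.card_inter_add_card_sdiff T'' T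
      rw [Finset.inter_comm, hc', hT''.1.card] at this
      omega
    obtain ⟨w, hw⟩ := Finset.card_eq_one.mp h6
    obtain ⟨w', hw'⟩ := Finset.card_eq_one.mp h7
    have hwm : w ∈ T' \ T := by rw [hw]; exact Finset.mem_singleton_self w
    have hwm' : w' ∈ T'' \ T := by rw [hw']; exact Finset.mem_singleton_self w'
    obtain ⟨hwT', hwT⟩ := Finset.mem_sdiff.mp hwm
    obtain ⟨hwT'', hwT2⟩ := Finset.mem_sdiff.mp hwm'
    have hww : w = w' := by
      by_contra hne3
      have h8 : insert w (insert w' (T.erase q)) ⊆ nb H U q := by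
        intro z hz
        rw [mem_nb]
        rcases Finset.mem_insert.mp hz with h | h
        · rw [h]
          exact ⟨hT'.1.sub hwT', hT'.1.adj q hqT' w hwT' (fun he => hwT (by rw [← he]; exact hqT))⟩
        rcases Finset.mem_insert.mp h with h | h
        · rw [h]
          exact ⟨hT''.1.sub hwT'', hT''.1.adj q hqT'' w' hwT''
            (fun he => hwT2 (by rw [← he]; exact hqT))⟩
        · exact ⟨hT.1.sub (Finset.mem_of_mem_erase h),
            hT.1.adj q hqT z (Finset.mem_of_mem_erase h) (Finset.ne_of_mem_erase h).symm⟩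
      have h9 := Finset.card_le_card h8
      rw [Finset.card_insert_of_notMem (by
          rw [Finset.mem_insert, not_or]
          exact ⟨hne3, fun h => hwT (Finset.mem_of_mem_erase h)⟩),
        Finset.card_insert_of_notMem (fun h => hwT2 (Finset.mem_of_mem_erase h)),
        Finset.card_erase_of_mem hqT, hT.1.card] at h9
      have h10 : (nb H U q).card = 3 := hT.1.deg q hqT
      omega
    subst hww
    have hwadj : ∀ z ∈ T, H.Adj w z := by
      intro z hz
      have hzw : w ≠ z := fun he => hwT (by rw [he]; exact hz)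
      rw [← hun] at hz
      rcases Finset.mem_union.mp hz with h | h
      · exact hT'.1.adj w hwT' z (Finset.mem_inter.mp h).2 hzw
      · exact hT''.1.adj w hwT'' z (Finset.mem_inter.mp h).2 hzw
    have hK : IsK4 H U (insert w T) := by
      refine ⟨Finset.insert_subset (hT'.1.sub hwT') hT.1.sub, ?_, ?_⟩
      · rw [Finset.card_insert_of_notMem hwT, hT.1.card]
      · intro a ha b hb hab
        rcases Finset.mem_insert.mp ha with h | h <;> rcases Finset.mem_insert.mp hb with h' | h'
        · exact absurd (h.trans h'.symm) hab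
        · rw [h]; exact hwadj b h'
        · rw [h']; exact (hwadj a h).symm
        · exact hT.1.adj a h b h' hab
    exact not_mem_of_mem_U0 (hT.2 hqT) hK (Finset.mem_insert_of_mem hqT)
  · push Not at hex
    have hne : T.Nonempty := by rw [← Finset.card_pos, hT.1.card]; omega
    obtain ⟨x, hx⟩ := hne
    refine ⟨T.erase x, Finset.erase_subset _ _, ?_, ?_⟩
    · rw [Finset.card_erase_of_mem hx, hT.1.card]
    · intro T' hT' hmeet
      have : T' = T := by
        by_contra hne
        exact hmeet (hex T' hT' hne)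
      rw [this]
      exact Finset.erase_subset _ _

/-- A maximal family of pairwise disjoint triangles. -/
theorem exists_maximal (H : SimpleGraph V) (U : Finset V) :
    ∃ TT : Finset (Finset V), (∀ T ∈ TT, FT H U T) ∧ PD TT ∧
      ∀ T, FT H U T → ∃ T' ∈ TT, ¬ Disjoint T T' := by
  classical
  set F := (U.powerset.filter fun T => FT H U T).powerset.filter fun TT => PD TT with hF
  have hne : F.Nonempty := ⟨∅, by
    rw [hF, Finset.mem_filter]
    exact ⟨Finset.empty_mem_powerset _, fun T hT => absurd hT (Finset.notMem_empty T)⟩⟩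
  obtain ⟨TT, hTT, hmax⟩ := Finset.exists_max_image F Finset.card hne
  rw [hF, Finset.mem_filter, Finset.mem_powerset] at hTT
  refine ⟨TT, fun T hT => (Finset.mem_filter.mp (hTT.1 hT)).2, hTT.2, ?_⟩
  intro T hT
  by_contra hcon
  push Not at hcon
  have hTn : T ∉ TT := by
    intro hmem
    have h1 := hcon T hmem
    rw [Finset.disjoint_self_iff_empty] at h1
    have h2 := hT.1.card
    rw [h1] at h2
    simp at h2
  have hin : insert T TT ∈ F := by
    rw [hF, Finset.mem_filter, Finset.mem_powerset]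
    refine ⟨Finset.insert_subset (Finset.mem_filter.mpr
      ⟨Finset.mem_powerset.mpr hT.1.sub, hT⟩) hTT.1, ?_⟩
    intro A hA B hB hAB
    rcases Finset.mem_insert.mp hA with h | h <;> rcases Finset.mem_insert.mp hB with h' | h'
    · exact absurd (h.trans h'.symm) hAB
    · rw [h]; exact hcon B h'
    · rw [h']; exact (hcon A h).symm
    · exact hTT.2 A h B h' hAB
  have := hmax _ hin
  rw [Finset.card_insert_of_notMem hTn] at this
  omega

/-- The cost function. -/
theorem exists_cost {H : SimpleGraph V} {U : Finset V} (hsub : ∀ x ∈ U, dg H U x ≤ 3) :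
    ∃ c : V → ℕ, (∀ x, c x ≤ 2) ∧ (∀ x, c x ≠ 0 → dg H U x = 3) ∧
      (∃ R ⊆ U, PlS H ((U \ R : Finset V) : Set V) ∧ 8 * R.card ≤ ∑ x ∈ U, c x) ∧
      ∀ N ⊆ U, N.card = 4 → (∀ x ∈ N, ∀ y ∈ N, dg H U x = 3 → dg H U y = 3 → x ≠ y → H.Adj x y) →
        ∑ x ∈ N, c x ≤ 4 := by
  classical
  obtain ⟨TT, hFT, hd, hmax⟩ := exists_maximal H U
  have he : ∀ T, ∃ e : Finset V, FT H U T → e ⊆ T ∧ e.card = 2 ∧
      ∀ T', FT H U T' → ¬ Disjoint T' T → e ⊆ T' := by
    intro T
    by_cases hT : FT H U T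
    · obtain ⟨e, h1, h2, h3⟩ := exists_edge hT
      exact ⟨e, fun _ => ⟨h1, h2, h3⟩⟩
    · exact ⟨∅, fun h => absurd h hT⟩
  choose e he using he
  set E := TT.biUnion e with hE
  have hEB : E ⊆ Bs H U := by
    intro x hx
    obtain ⟨T, hT, hxe⟩ := Finset.mem_biUnion.mp hx
    have hxT := (he T (hFT T hT)).1 hxe
    exact Finset.mem_inter.mpr ⟨mem_B3.mpr ⟨(hFT T hT).1.sub hxT, (hFT T hT).1.deg x hxT⟩,
      (hFT T hT).2 hxT⟩
  have hEc : E.card = 2 * TT.card := by
    have h1 : E.card = ∑ T ∈ TT, (e T).card := by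
      rw [hE]
      refine Finset.card_biUnion ?_
      intro T hT T' hT' hne
      exact (hd T hT T' hT' hne).mono (he T (hFT T hT)).1 (he T' (hFT T' hT')).1
    rw [h1, Finset.sum_congr rfl fun T hT => (he T (hFT T hT)).2.1, Finset.sum_const,
      smul_eq_mul, mul_comm]
  set c : V → ℕ := fun x => if x ∈ E then 1 else if x ∈ Bs H U then 2 else 0 with hc
  have hcsum : ∀ N : Finset V, ∑ x ∈ N, c x + (N ∩ E).card = 2 * (N ∩ Bs H U).card := by
    intro N
    have h1 : ∀ x, c x + (if x ∈ E then 1 else 0) = 2 * (if x ∈ Bs H U then 1 else 0) := by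
      intro x
      simp only [hc]
      by_cases hx : x ∈ E
      · rw [if_pos hx, if_pos hx, if_pos (hEB hx)]
      · rw [if_neg hx, if_neg hx]
        by_cases hx' : x ∈ Bs H U
        · rw [if_pos hx', if_pos hx']
        · rw [if_neg hx', if_neg hx']
    have h2 : (N ∩ E).card = ∑ x ∈ N, if x ∈ E then 1 else 0 := by
      rw [← Finset.filter_mem_eq_inter, Finset.card_filter]
    have h3 : (N ∩ Bs H U).card = ∑ x ∈ N, if x ∈ Bs H U then 1 else 0 := by
      rw [← Finset.filter_mem_eq_inter, Finset.card_filter]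
    rw [h2, h3, ← Finset.sum_add_distrib, Finset.mul_sum]
    exact Finset.sum_congr rfl fun x _ => h1 x
  have hBU : Bs H U ⊆ U := fun x hx => (mem_B3.mp (Finset.mem_inter.mp hx).1).1
  refine ⟨c, ?_, ?_, ?_, ?_⟩
  · intro x
    simp only [hc]
    split
    · omega
    · split <;> omega
  · intro x hx
    have : x ∈ Bs H U := by
      by_contra hcon
      apply hx
      simp only [hc]
      rw [if_neg (fun h => hcon (hEB h)), if_neg hcon]
    exact (mem_B3.mp (Finset.mem_inter.mp this).1).2
  · obtain ⟨R, hR, hp, hcR⟩ := planarize hsub TT hFT hd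
    refine ⟨R, hR, hp, ?_⟩
    have h1 := hcsum U
    rw [Finset.inter_eq_right.mpr (hEB.trans hBU), Finset.inter_eq_right.mpr hBU] at h1
    omega
  · intro N hN hN4 hcl
    have h1 := hcsum N
    set NB := N ∩ Bs H U with hNB
    have hNBN : NB ⊆ N := Finset.inter_subset_left
    have hNBB : NB ⊆ Bs H U := Finset.inter_subset_right
    have hadj : ∀ x ∈ NB, ∀ y ∈ NB, x ≠ y → H.Adj x y := by
      intro x hx y hy hxy
      exact hcl x (hNBN hx) y (hNBN hy) (mem_B3.mp (Finset.mem_inter.mp (hNBB hx)).1).2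
        (mem_B3.mp (Finset.mem_inter.mp (hNBB hy)).1).2 hxy
    have hle4 : NB.card ≤ 4 := by rw [← hN4]; exact Finset.card_le_card hNBN
    have hn4 : NB.card ≠ 4 := by
      intro h4
      have hne : NB.Nonempty := by rw [← Finset.card_pos]; omega
      obtain ⟨x, hx⟩ := hne
      exact not_mem_of_mem_U0 (Finset.mem_inter.mp (hNBB hx)).2
        ⟨hNBN.trans hN, h4, hadj⟩ hx
    by_cases h3 : NB.card = 3
    · have hNFT : FT H U NB := ⟨⟨hNBN.trans hN, h3, hadj, fun x hx =>
        (mem_B3.mp (Finset.mem_inter.mp (hNBB hx)).1).2⟩,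
        fun x hx => (Finset.mem_inter.mp (hNBB hx)).2⟩
      obtain ⟨T1, hT1, hmeet⟩ := hmax NB hNFT
      obtain ⟨he1, he2, he3⟩ := he T1 (hFT T1 hT1)
      have he4 := he3 NB hNFT hmeet
      have h5 : e T1 ⊆ N ∩ E := by
        intro x hx
        exact Finset.mem_inter.mpr ⟨hNBN (he4 hx), Finset.mem_biUnion.mpr ⟨T1, hT1, hx⟩⟩
      have h6 := Finset.card_le_card h5
      omega
    · omega

end Pool.Agent.Helper93.Plz
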