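import Pool.Agent.Helper93.Plz.Cost

set_option autoImplicit false

/-!
# Large induced planar subgraphs of graphs of maximum degree `d` (MP_8e7d5e_co)
-/

namespace Pool.Agent.Helper93.Plz

open Pool.Agent.Helper60.Plz

variable {V : Type} [DecidableEq V]

/-- Twice the number of edges inside `P`. -/
noncomputable def e2 (G : SimpleGraph V) (P : Finset V) : ℕ := ∑ x ∈ P, dg G P x

theorem nb_insert_self (G : SimpleGraph V) (P : Finset V) (v : V) :
    nb G (insert v P) v = nb G P v := by
  ext y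
  rw [mem_nb, mem_nb]
  constructor
  · rintro ⟨h1, h2⟩
    refine ⟨(Finset.mem_insert.mp h1).resolve_left (fun h => ?_), h2⟩
    exact h2.ne' h
  · rintro ⟨h1, h2⟩
    exact ⟨Finset.mem_insert_of_mem h1, h2⟩

open Classical in
theorem dg_insert (G : SimpleGraph V) {P : Finset V} {v : V} (hv : v ∉ P) (x : V) :
    dg G (insert v P) x = dg G P x + (if G.Adj v x then 1 else 0) := by
  by_cases h : G.Adj v x
  · rw [if_pos h]
    have : nb G (insert v P) x = insert v (nb G P x) := by
      ext y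
      rw [Finset.mem_insert, mem_nb, mem_nb, Finset.mem_insert]
      constructor
      · rintro ⟨h1 | h1, h2⟩
        · exact Or.inl h1
        · exact Or.inr ⟨h1, h2⟩
      · rintro (h1 | ⟨h1, h2⟩)
        · subst h1; exact ⟨Or.inl rfl, h.symm⟩
        · exact ⟨Or.inr h1, h2⟩
    rw [dg, this, Finset.card_insert_of_notMem (fun h' => hv (mem_nb.mp h').1)]
    rfl
  · rw [if_neg h, add_zero]
    have : nb G (insert v P) x = nb G P x := by
      ext y
      rw [mem_nb, mem_nb, Finset.mem_insert]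
      constructor
      · rintro ⟨h1 | h1, h2⟩
        · subst h1; exact absurd h2.symm h
        · exact ⟨h1, h2⟩
      · rintro ⟨h1, h2⟩
        exact ⟨Or.inr h1, h2⟩
    rw [dg, this]
    rfl

theorem e2_insert (G : SimpleGraph V) {P : Finset V} {v : V} (hv : v ∉ P) :
    e2 G (insert v P) = e2 G P + 2 * dg G P v := by
  classical
  rw [e2, Finset.sum_insert hv, dg, nb_insert_self]
  rw [Finset.sum_congr rfl fun x _ => dg_insert G hv x, Finset.sum_add_distrib]
  have : ∑ x ∈ P, (if G.Adj v x then 1 else 0) = dg G P v := by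
    rw [dg, nb, Finset.card_filter]
  rw [this, e2]
  change dg G P v + _ = _
  ring

/-- The optimal set. -/
theorem exists_opt [Fintype V] (G : SimpleGraph V) : ∃ Q : Finset V,
    (∀ v, v ∉ Q → 4 ≤ dg G Q v) ∧ (∀ x ∈ Q, dg G Q x ≤ 3) ∧
    ∀ v, v ∉ Q → dg G Q v = 4 → ∀ x ∈ nb G Q v, ∀ y ∈ nb G Q v, dg G Q x = 3 → dg G Q y = 3 →
      x ≠ y → G.Adj x y := by
  classical
  obtain ⟨Q, -, hmax⟩ := Finset.exists_max_image (Finset.univ : Finset (Finset V))
    (fun P => 7 * (P.card : ℤ) - e2 G P) ⟨∅, Finset.mem_univ _⟩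
  have hmax' : ∀ P : Finset V, 7 * (P.card : ℤ) - e2 G P ≤ 7 * (Q.card : ℤ) - e2 G Q :=
    fun P => hmax P (Finset.mem_univ P)
  refine ⟨Q, ?_, ?_, ?_⟩
  · intro v hv
    have h := hmax' (insert v Q)
    rw [Finset.card_insert_of_notMem hv, e2_insert G hv] at h
    push_cast at h
    omega
  · intro x hx
    have h := hmax' (Q.erase x)
    have hx' : x ∉ Q.erase x := Finset.notMem_erase x Q
    have h1 := e2_insert G hx'
    have h2 := nb_insert_self G (Q.erase x) x
    rw [Finset.insert_erase hx] at h1 h2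
    have h3 := Finset.card_erase_add_one hx
    have h4 : dg G Q x = dg G (Q.erase x) x := by rw [dg, h2]; rfl
    rw [h1] at h
    push_cast at h
    omega
  · intro v hv hv4 x hx y hy hx3 hy3 hxy
    by_contra hnadj
    obtain ⟨hxQ, hvx⟩ := mem_nb.mp hx
    obtain ⟨hyQ, hvy⟩ := mem_nb.mp hy
    set P := (Q.erase x).erase y with hP
    have hyQx : y ∈ Q.erase x := Finset.mem_erase.mpr ⟨hxy.symm, hyQ⟩
    have hyP : y ∉ P := Finset.notMem_erase y _
    have hxP : x ∉ P := fun h => Finset.notMem_erase x Q (Finset.mem_of_mem_erase h)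
    have hvP : v ∉ P := fun h => hv (Finset.mem_of_mem_erase (Finset.mem_of_mem_erase h))
    have hPy : insert y P = Q.erase x := Finset.insert_erase hyQx
    have hQ : insert x (insert y P) = Q := by rw [hPy]; exact Finset.insert_erase hxQ
    have hxyP : x ∉ insert y P := by rw [hPy]; exact Finset.notMem_erase x Q
    have h1 : e2 G Q = e2 G P + 2 * dg G P y + 2 * dg G (insert y P) x := by
      rw [← hQ, e2_insert G hxyP, e2_insert G hyP]
    have h2 : e2 G (insert v P) = e2 G P + 2 * dg G P v := e2_insert G hvP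
    have h3 : dg G (insert y P) x = 3 := by
      have := nb_insert_self G (insert y P) x
      rw [hQ] at this
      rw [dg, ← this]
      exact hx3
    have h4 : dg G P y = 3 := by
      have ha := dg_insert G hxyP y
      rw [hQ, if_neg hnadj, add_zero] at ha
      have hb : dg G (insert y P) y = dg G P y := by rw [dg, nb_insert_self]; rfl
      rw [← hb, ← ha, hy3]
    have h5 : dg G P v + 2 = 4 := by
      have ha := dg_insert G hxyP v
      rw [hQ, if_pos hvx.symm, dg_insert G hyP v, if_pos hvy.symm] at ha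
      omega
    have h6 : Q.card = P.card + 2 := by
      rw [← hQ, Finset.card_insert_of_notMem hxyP, Finset.card_insert_of_notMem hyP]
    have h := hmax' (insert v P)
    rw [Finset.card_insert_of_notMem hvP, h1, h2, h6, h3, h4] at h
    push_cast at h
    omega

/-- Every finite graph of maximum degree at most `d` has an induced planar subgraph on at least
`49 n / (14 d + 38)` vertices. -/
theorem exists_planar [Fintype V] (G : SimpleGraph V) (d : ℕ) (hd : 7 ≤ d)
    (hG : ∀ v, (G.neighborSet v).ncard ≤ d) :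
    ∃ P : Finset V, PlS G (P : Set V) ∧
      49 * (Fintype.card V : ℝ) ≤ (14 * d + 38) * P.card := by
  classical
  obtain ⟨Q, hout, hin, hcl⟩ := exists_opt G
  obtain ⟨c, hc2, hc3, ⟨R, hR, hp, hcR⟩, hc4⟩ := exists_cost hin
  refine ⟨Q \ R, hp, ?_⟩
  have hd' : (7 : ℝ) ≤ d := by exact_mod_cast hd
  have hd0 : (0 : ℝ) < d := by linarith
  set h : ℝ := 1 / d with hh
  have hhd : h * d = 1 := by rw [hh]; field_simp
  have hh0 : 0 ≤ h := by rw [hh]; positivity
  have hh7 : h ≤ 1 / 7 := by
    rw [hh]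
    exact one_div_le_one_div_of_le (by norm_num) hd'
  set A : V → ℝ := fun x => (14 - 11 * h) - (7 / 4 - 11 * h) * c x with hA
  have hcr : ∀ x, (c x : ℝ) ≤ 2 := fun x => by exact_mod_cast hc2 x
  have hcr0 : ∀ x, (0 : ℝ) ≤ c x := fun x => Nat.cast_nonneg _
  have hAlow : ∀ x, 21 / 2 ≤ A x := by
    intro x
    simp only [hA]
    nlinarith [hcr x, hcr0 x]
  -- every outside vertex
  have hv49 : ∀ v, v ∉ Q → 49 ≤ ∑ x ∈ nb G Q v, A x := by
    intro v hv
    have h4 := hout v hv
    by_cases h5 : 5 ≤ dg G Q v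
    · have h6 : (dg G Q v : ℝ) * (21 / 2) ≤ ∑ x ∈ nb G Q v, A x := by
        have := Finset.card_nsmul_le_sum (nb G Q v) A (21 / 2) (fun x _ => hAlow x)
        rw [nsmul_eq_mul] at this
        exact this
      have h7 : (5 : ℝ) ≤ dg G Q v := by exact_mod_cast h5
      linarith
    · have h6 : dg G Q v = 4 := by omega
      have h7 := hc4 (nb G Q v) (fun x hx => (mem_nb.mp hx).1) h6 (hcl v hv h6)
      have h8 : ∑ x ∈ nb G Q v, A x =
          4 * (14 - 11 * h) - (7 / 4 - 11 * h) * ((∑ x ∈ nb G Q v, c x : ℕ) : ℝ) := by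
        simp only [hA]
        rw [Finset.sum_sub_distrib, Finset.sum_const, nsmul_eq_mul, ← Finset.mul_sum]
        push_cast
        have : ((nb G Q v).card : ℝ) = 4 := by exact_mod_cast h6
        rw [this]
      have h9 : ((∑ x ∈ nb G Q v, c x : ℕ) : ℝ) ≤ 4 := by exact_mod_cast h7
      have h10 : (0 : ℝ) ≤ ((∑ x ∈ nb G Q v, c x : ℕ) : ℝ) := Nat.cast_nonneg _
      rw [h8]
      nlinarith
  -- double counting
  have hdc : ∑ v ∈ Finset.univ \ Q, ∑ x ∈ nb G Q v, A x =
      ∑ x ∈ Q, (dg G (Finset.univ \ Q) x : ℝ) * A x := by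
    have h1 : ∀ v, ∑ x ∈ nb G Q v, A x = ∑ x ∈ Q, if G.Adj v x then A x else 0 := by
      intro v
      rw [nb, Finset.sum_filter]
    have h2 : ∀ x, (dg G (Finset.univ \ Q) x : ℝ) * A x =
        ∑ v ∈ Finset.univ \ Q, if G.Adj v x then A x else 0 := by
      intro x
      rw [dg, nb, Finset.card_filter]
      push_cast
      rw [Finset.sum_mul]
      refine Finset.sum_congr rfl fun v _ => ?_
      by_cases hvx : G.Adj v x
      · rw [if_pos hvx, if_pos hvx.symm, one_mul]
      · rw [if_neg hvx, if_neg (fun h' => hvx h'.symm), zero_mul]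
    rw [Finset.sum_congr rfl fun v _ => h1 v, Finset.sum_comm]
    exact Finset.sum_congr rfl fun x _ => (h2 x).symm
  have hdeg : ∀ x, (dg G (Finset.univ \ Q) x : ℝ) ≤ d - dg G Q x := by
    intro x
    have h1 : dg G (Finset.univ \ Q) x + dg G Q x ≤ d := by
      refine le_trans ?_ (hG x)
      rw [dg, dg, ← Finset.card_union_of_disjoint, Set.ncard_eq_toFinset_card']
      · refine Finset.card_le_card ?_
        intro y hy
        rw [Set.mem_toFinset, SimpleGraph.mem_neighborSet]
        rcases Finset.mem_union.mp hy with h' | h'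
        · exact (mem_nb.mp h').2
        · exact (mem_nb.mp h').2
      · rw [Finset.disjoint_left]
        intro y hy hy'
        exact (Finset.mem_sdiff.mp (mem_nb.mp hy).1).2 (mem_nb.mp hy').1
    have h2 : (dg G (Finset.univ \ Q) x : ℝ) + dg G Q x ≤ d := by exact_mod_cast h1
    linarith
  have hx : ∀ x ∈ Q, (dg G (Finset.univ \ Q) x : ℝ) * A x ≤
      (1 - (c x : ℝ) / 8) * (14 * d + 38) - 49 := by
    intro x _
    have hA0 : 0 ≤ A x := by linarith [hAlow x]
    refine (mul_le_mul_of_nonneg_right (hdeg x) hA0).trans ?_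
    have hk0 : (0 : ℝ) ≤ dg G Q x := Nat.cast_nonneg _
    by_cases h0 : c x = 0
    · simp only [hA, h0, Nat.cast_zero, mul_zero, sub_zero, zero_div]
      nlinarith
    · have hk3 : (dg G Q x : ℝ) = 3 := by exact_mod_cast hc3 x h0
      rw [hk3]
      have h2 := hc2 x
      have h12 : c x = 1 ∨ c x = 2 := by omega
      rcases h12 with h' | h'
      · simp only [hA, h', Nat.cast_one, mul_one]
        nlinarith
      · simp only [hA, h', Nat.cast_ofNat]
        nlinarith
  have hsum1 : 49 * ((Finset.univ \ Q).card : ℝ) ≤ ∑ v ∈ Finset.univ \ Q, ∑ x ∈ nb G Q v, A x := by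
    have := Finset.card_nsmul_le_sum (Finset.univ \ Q) (fun v => ∑ x ∈ nb G Q v, A x) 49
      (fun v hv => hv49 v (Finset.mem_sdiff.mp hv).2)
    rw [nsmul_eq_mul] at this
    linarith
  have hsum2 : ∑ x ∈ Q, (dg G (Finset.univ \ Q) x : ℝ) * A x ≤
      ((Q.card : ℝ) - ((∑ x ∈ Q, c x : ℕ) : ℝ) / 8) * (14 * d + 38) - 49 * Q.card := by
    refine (Finset.sum_le_sum hx).trans (le_of_eq ?_)
    rw [Finset.sum_sub_distrib, ← Finset.sum_mul, Finset.sum_sub_distrib, Finset.sum_const,
      Finset.sum_const, nsmul_eq_mul, nsmul_eq_mul, ← Finset.sum_div]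
    push_cast
    ring
  have hcR' : (8 : ℝ) * R.card ≤ ((∑ x ∈ Q, c x : ℕ) : ℝ) := by exact_mod_cast hcR
  have hPc : ((Q \ R).card : ℝ) + R.card = Q.card := by
    exact_mod_cast Finset.card_sdiff_add_card_eq_card hR
  have hn : ((Finset.univ \ Q).card : ℝ) + Q.card = Fintype.card V := by
    rw [← Finset.card_univ]
    exact_mod_cast Finset.card_sdiff_add_card_eq_card (Finset.subset_univ Q)
  rw [hdc] at hsum1
  have hfin : 49 * (Fintype.card V : ℝ) ≤
      ((Q.card : ℝ) - ((∑ x ∈ Q, c x : ℕ) : ℝ) / 8) * (14 * d + 38) := by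
    rw [← hn]
    linarith
  refine hfin.trans ?_
  rw [mul_comm]
  refine mul_le_mul_of_nonneg_left ?_ (by linarith)
  linarith

omit [DecidableEq V] in
theorem planarization_le [Fintype V] (G : SimpleGraph V) (d : ℕ) (hd : 7 ≤ d)
    (hG : ∀ v, (G.neighborSet v).ncard ≤ d) :
    (planarization G : ℝ) ≤ (1 - 49 / (14 * d + 38)) * Fintype.card V := by
  classical
  obtain ⟨P, hP, hc⟩ := exists_planar G d hd hG
  have hd' : (7 : ℝ) ≤ d := by exact_mod_cast hd
  have h1 : planarization G ≤ (Finset.univ \ P).card := by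
    refine Nat.sInf_le ⟨Finset.univ \ P, rfl, ?_⟩
    have he : {v | v ∉ Finset.univ \ P} = (P : Set V) := by
      ext v
      simp
    rw [he]
    exact isPlanar_of_plS hP
  have h2 : ((Finset.univ \ P).card : ℝ) + P.card = Fintype.card V := by
    rw [← Finset.card_univ]
    exact_mod_cast Finset.card_sdiff_add_card_eq_card (Finset.subset_univ P)
  have h3 : (planarization G : ℝ) ≤ ((Finset.univ \ P).card : ℝ) := by exact_mod_cast h1
  have h4 : (49 / (14 * d + 38)) * (Fintype.card V : ℝ) ≤ P.card := by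
    rw [div_mul_eq_mul_div, div_le_iff₀ (by linarith)]
    linarith
  linarith

theorem pd_le (d : ℕ) (hd : 7 ≤ d) : pd d ≤ 1 - 49 / (14 * d + 38) := by
  have hd' : (7 : ℝ) ≤ d := by exact_mod_cast hd
  set S := {μ : ℝ | ∀ ε > 0, ∃ N : ℕ, ∀ (V : Type) (_ : Fintype V) (G : SimpleGraph V),
    G.Connected → (∀ v, (G.neighborSet v).ncard ≤ d) → N ≤ Fintype.card V →
      (planarization G : ℝ) ≤ (μ + ε) * Fintype.card V} with hS
  have hmem : 1 - 49 / (14 * (d : ℝ) + 38) ∈ S := by
    intro ε hε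
    refine ⟨0, fun V _ G _ hG _ => ?_⟩
    have h1 := planarization_le G d hd hG
    have h2 : (0 : ℝ) ≤ Fintype.card V := Nat.cast_nonneg _
    nlinarith
  change sInf S ≤ _
  by_cases hb : BddBelow S
  · exact csInf_le hb hmem
  · rw [Real.sInf_of_not_bddBelow hb]
    rw [sub_nonneg, div_le_one (by linarith)]
    linarith

end Pool.Agent.Helper93.Plz
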