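import Pool.Agent.Helper60.Plz.Defs

set_option autoImplicit false

/-!
# Planarity tools for MP_8e7d5e_co (minors inside a vertex set)
-/

namespace Pool.Agent.Helper93.Plz

open Pool.Agent.Helper60.Plz

/-- Cut connectivity of a vertex set. -/
def Cn {V : Type} (H : SimpleGraph V) (S : Set V) : Prop :=
  S.Nonempty ∧ ∀ T ⊆ S, T.Nonempty → T ≠ S → ∃ x ∈ T, ∃ y ∈ S, y ∉ T ∧ H.Adj x y

/-- `K` is a minor of the subgraph of `H` induced by `S`. -/
def MinorIn {W V : Type} (K : SimpleGraph W) (H : SimpleGraph V) (S : Set V) : Prop :=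
  ∃ f : W → Set V, (∀ w, f w ⊆ S) ∧ (∀ w, Cn H (f w)) ∧
    (∀ w w', w ≠ w' → Disjoint (f w) (f w')) ∧
    ∀ w w', K.Adj w w' → ∃ x ∈ f w, ∃ y ∈ f w', H.Adj x y

theorem exists_adj_of_connected {α : Type} {G : SimpleGraph α} (hG : G.Connected) (P : α → Prop)
    {a b : α} (ha : P a) (hb : ¬ P b) : ∃ x y, G.Adj x y ∧ P x ∧ ¬ P y := by
  obtain ⟨p⟩ := hG.preconnected a b
  obtain ⟨d, -, h1, h2⟩ := p.exists_boundary_dart {x | P x} ha hb
  exact ⟨d.fst, d.snd, d.adj, h1, h2⟩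

theorem minorIn_of_hasMinor {W V : Type} {K : SimpleGraph W} {H : SimpleGraph V} {S : Set V}
    (h : HasMinor K (H.induce S)) : MinorIn K H S := by
  obtain ⟨f, h1, h2, h3⟩ := h
  refine ⟨fun w => Subtype.val '' f w, ?_, ?_, ?_, ?_⟩
  · rintro w _ ⟨x, -, rfl⟩
    exact x.2
  · intro w
    have hc := h1 w
    refine ⟨?_, ?_⟩
    · obtain ⟨⟨x, hx⟩⟩ := hc.nonempty
      exact ⟨x.1, x, hx, rfl⟩
    · intro T hT hne hTS
      obtain ⟨t, ht⟩ := hne
      obtain ⟨a, ha, rfl⟩ := hT ht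
      obtain ⟨b, hb, hbT⟩ : ∃ b ∈ f w, (b : V) ∉ T := by
        by_contra hcon
        push Not at hcon
        apply hTS
        refine Set.Subset.antisymm hT ?_
        rintro _ ⟨b, hb, rfl⟩
        exact hcon b hb
      obtain ⟨x, y, hxy, hx, hy⟩ := exists_adj_of_connected hc
        (fun z : ↥(f w) => ((z : ↥S) : V) ∈ T) (a := ⟨a, ha⟩) (b := ⟨b, hb⟩) ht hbT
      exact ⟨_, hx, _, ⟨y.1, y.2, rfl⟩, hy, hxy⟩
  · intro w w' hw
    rw [Set.disjoint_left]
    rintro _ ⟨x, hx, rfl⟩ ⟨y, hy, hxy⟩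
    have : y = x := Subtype.ext hxy
    subst this
    exact Set.disjoint_left.mp (h2 w w' hw) hx hy
  · intro w w' hw
    obtain ⟨x, hx, y, hy, hxy⟩ := h3 w w' hw
    exact ⟨x, ⟨x, hx, rfl⟩, y, ⟨y, hy, rfl⟩, hxy⟩

/-- Removing a vertex of degree at most two, adding the edge between its neighbours. -/
theorem minor_del {W V : Type} {K : SimpleGraph W} {H H' : SimpleGraph V} {S : Set V} {v a b : V}
    (hK : ∀ w a b : W, ∃ w', K.Adj w w' ∧ w' ≠ a ∧ w' ≠ b)
    (hN : ∀ y ∈ S, H.Adj v y → y = a ∨ y = b)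
    (hle : ∀ x ∈ S, ∀ y ∈ S, H.Adj x y → H'.Adj x y)
    (hab : a ∈ S → b ∈ S → H.Adj v a → H.Adj v b → a ≠ b → H'.Adj a b)
    (hm : MinorIn K H (insert v S)) : MinorIn K H' S := by
  classical
  obtain ⟨f, h1, h2, h3, h4⟩ := hm
  -- two different neighbours of `v` are adjacent in `H'`
  have hnb : ∀ x ∈ S, ∀ y ∈ S, H.Adj v x → H.Adj v y → x ≠ y → H'.Adj x y := by
    intro x hx y hy hvx hvy hxy
    rcases hN x hx hvx with rfl | rfl <;> rcases hN y hy hvy with rfl | rfl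
    · exact absurd rfl hxy
    · exact hab hx hy hvx hvy hxy
    · exact (hab hy hx hvy hvx hxy.symm).symm
    · exact absurd rfl hxy
  have hS : ∀ w, ∀ x ∈ f w, x ≠ v → x ∈ S := fun w x hx hxv =>
    (Set.mem_insert_iff.mp (h1 w hx)).resolve_left hxv
  -- no branch set is `{v}`
  have hne : ∀ w, ∃ x ∈ f w, x ≠ v := by
    intro w
    by_contra hcon
    push Not at hcon
    have hwit : ∀ w', K.Adj w w' → a ∈ f w' ∨ b ∈ f w' := by
      intro w' hw'
      obtain ⟨x, hx, y, hy, hxy⟩ := h4 w w' hw'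
      have hxv := hcon x hx
      subst hxv
      have hyv : y ≠ x := hxy.ne'
      have hyS := hS w' y hy hyv
      rcases hN y hyS hxy with rfl | rfl
      · exact Or.inl hy
      · exact Or.inr hy
    have huniq : ∀ z : V, ∃ wz : W, ∀ w', z ∈ f w' → w' = wz := by
      intro z
      by_cases hz : ∃ wz, z ∈ f wz
      · obtain ⟨wz, hwz⟩ := hz
        refine ⟨wz, fun w' hw' => ?_⟩
        by_contra hne
        exact Set.disjoint_left.mp (h3 w' wz hne) hw' hwz
      · exact ⟨w, fun w' hw' => absurd ⟨w', hw'⟩ hz⟩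
    obtain ⟨wa, hwa⟩ := huniq a
    obtain ⟨wb, hwb⟩ := huniq b
    obtain ⟨w', hw1, hw2, hw3⟩ := hK w wa wb
    rcases hwit w' hw1 with h | h
    · exact hw2 (hwa w' h)
    · exact hw3 (hwb w' h)
  -- a branch set containing `v` contains a neighbour of `v`
  have hvn : ∀ w, v ∈ f w → ∃ y ∈ f w, y ≠ v ∧ H.Adj v y := by
    intro w hv
    obtain ⟨z, hz, hzv⟩ := hne w
    obtain ⟨x, hx, y, hy, hyx, hxy⟩ := (h2 w).2 {v} (Set.singleton_subset_iff.mpr hv)
      (Set.singleton_nonempty v) (fun h => hzv (by rw [← h] at hz; exact hz))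
    rw [Set.mem_singleton_iff] at hx
    subst hx
    exact ⟨y, hy, fun h => hyx (by rw [h]; rfl), hxy⟩
  refine ⟨fun w => f w \ {v}, ?_, ?_, ?_, ?_⟩
  · rintro w x ⟨hx, hxv⟩
    exact hS w x hx hxv
  · intro w
    refine ⟨?_, ?_⟩
    · obtain ⟨x, hx, hxv⟩ := hne w
      exact ⟨x, hx, hxv⟩
    · intro T hT hTn hTS
      obtain ⟨z, hz, hzT⟩ : ∃ z ∈ f w \ {v}, z ∉ T := by
        by_contra hcon
        push Not at hcon
        exact hTS (Set.Subset.antisymm hT hcon)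
      have hTf : T ⊆ f w := fun x hx => (hT hx).1
      have hTv : ∀ x ∈ T, x ≠ v := fun x hx => (hT hx).2
      obtain ⟨x, hx, y, hy, hyT, hxy⟩ := (h2 w).2 T hTf hTn
        (fun h => hzT (by rw [h]; exact hz.1))
      have hxS := hS w x (hTf hx) (hTv x hx)
      by_cases hyv : y = v
      · subst hyv
        obtain ⟨x', hx', y', hy', hyT', hxy'⟩ := (h2 w).2 (insert y T)
          (Set.insert_subset hy hTf) (Set.insert_nonempty y T) (by
            intro h
            have hz' : z ∈ insert y T := by rw [h]; exact hz.1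
            rcases Set.mem_insert_iff.mp hz' with h' | h'
            · exact hz.2 h'
            · exact hzT h')
        have hy'v : y' ≠ y := fun h => hyT' (by rw [h]; exact Set.mem_insert y T)
        have hy'T : y' ∉ T := fun h => hyT' (Set.mem_insert_of_mem _ h)
        have hy'S := hS w y' hy' hy'v
        rcases Set.mem_insert_iff.mp hx' with h | h
        · subst h
          refine ⟨x, hx, y', ⟨hy', hy'v⟩, hy'T, ?_⟩
          exact hnb x hxS y' hy'S hxy.symm hxy' (fun h => hy'T (by rw [← h]; exact hx))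
        · exact ⟨x', h, y', ⟨hy', hy'v⟩, hy'T,
            hle x' (hS w x' (hTf h) (hTv x' h)) y' hy'S hxy'⟩
      · exact ⟨x, hx, y, ⟨hy, hyv⟩, hyT, hle x hxS y (hS w y hy hyv) hxy⟩
  · intro w w' hw
    exact (h3 w w' hw).mono Set.sdiff_subset Set.sdiff_subset
  · intro w w' hw
    obtain ⟨x, hx, y, hy, hxy⟩ := h4 w w' hw
    have hdis := h3 w w' hw.ne
    by_cases hxv : x = v
    · subst hxv
      have hyv : y ≠ x := hxy.ne'
      obtain ⟨z, hz, hzv, hvz⟩ := hvn w hx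
      refine ⟨z, ⟨hz, hzv⟩, y, ⟨hy, hyv⟩, ?_⟩
      exact hnb z (hS w z hz hzv) y (hS w' y hy hyv) hvz hxy
        (fun h => Set.disjoint_left.mp hdis hz (by rw [h]; exact hy))
    · by_cases hyv : y = v
      · subst hyv
        obtain ⟨z, hz, hzv, hvz⟩ := hvn w' hy
        refine ⟨x, ⟨hx, hxv⟩, z, ⟨hz, hzv⟩, ?_⟩
        exact hnb x (hS w x hx hxv) z (hS w' z hz hzv) hxy.symm hvz
          (fun h => Set.disjoint_left.mp hdis hx (by rw [h]; exact hz))
      · exact ⟨x, ⟨hx, hxv⟩, y, ⟨hy, hyv⟩,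
          hle x (hS w x hx hxv) y (hS w' y hy hyv) hxy⟩

/-- Removing a union of components with few vertices. -/
theorem minor_comp {W V : Type} [Fintype W] {K : SimpleGraph W} {H : SimpleGraph V} {S : Set V}
    {Z : Finset V}
    (hK : ∀ P : W → Prop, (∀ w w', K.Adj w w' → P w → P w') → (∃ w, P w) → ∀ w, P w)
    (hcard : Z.card < Fintype.card W)
    (hZ : ∀ z ∈ Z, ∀ y ∈ S, y ∉ Z → ¬ H.Adj z y)
    (hm : MinorIn K H S) : MinorIn K H (S \ (Z : Set V)) := by
  classical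
  obtain ⟨f, h1, h2, h3, h4⟩ := hm
  have hdich : ∀ w, (∃ x ∈ f w, x ∈ Z) → f w ⊆ (Z : Set V) := by
    intro w hx
    by_contra hcon
    obtain ⟨x0, hx0, hx0Z⟩ := hx
    obtain ⟨x, hx, y, hy, hyT, hxy⟩ := (h2 w).2 (f w ∩ Z) Set.inter_subset_left ⟨x0, hx0, hx0Z⟩
      (fun h => hcon (by rw [← h]; exact Set.inter_subset_right))
    exact hZ x hx.2 y (h1 w hy) (fun h => hyT ⟨hy, h⟩) hxy
  by_cases hex : ∃ w, f w ⊆ (Z : Set V)
  · exfalso
    have hall := hK (fun w => f w ⊆ (Z : Set V)) (by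
      intro w w' hw hwZ
      obtain ⟨x, hx, y, hy, hxy⟩ := h4 w w' hw
      apply hdich
      refine ⟨y, hy, ?_⟩
      by_contra hyZ
      exact hZ x (hwZ hx) y (h1 w' hy) hyZ hxy) hex
    choose g hg using fun w => (h2 w).1
    have : Fintype.card W ≤ Z.card := by
      rw [← Finset.card_univ]
      refine Finset.card_le_card_of_injOn g (fun w _ => hall w (hg w)) ?_
      intro w _ w' _ hww
      by_contra hne
      exact Set.disjoint_left.mp (h3 w w' hne) (hg w) (by rw [hww]; exact hg w')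
    omega
  · push Not at hex
    refine ⟨f, ?_, h2, h3, h4⟩
    intro w x hx
    refine ⟨h1 w hx, fun hxZ => hex w (hdich w ⟨x, hx, hxZ⟩)⟩

/-- Planarity of the subgraph induced by a set of vertices. -/
def PlS {V : Type} (H : SimpleGraph V) (S : Set V) : Prop :=
  ¬ MinorIn (⊤ : SimpleGraph (Fin 5)) H S ∧ ¬ MinorIn (completeBipartiteGraph (Fin 3) (Fin 3)) H S

theorem isPlanar_of_plS {V : Type} {H : SimpleGraph V} {S : Set V} (h : PlS H S) :
    IsPlanar (H.induce S) :=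
  ⟨fun h' => h.1 (minorIn_of_hasMinor h'), fun h' => h.2 (minorIn_of_hasMinor h')⟩

theorem plS_empty {V : Type} (H : SimpleGraph V) : PlS H (∅ : Set V) := by
  refine ⟨?_, ?_⟩
  · rintro ⟨f, h1, h2, -, -⟩
    obtain ⟨x, hx⟩ := (h2 0).1
    exact h1 0 hx
  · rintro ⟨f, h1, h2, -, -⟩
    obtain ⟨x, hx⟩ := (h2 (Sum.inl 0)).1
    exact h1 _ hx

theorem plS_insert {V : Type} {H H' : SimpleGraph V} {S : Set V} {v a b : V}
    (hN : ∀ y ∈ S, H.Adj v y → y = a ∨ y = b)
    (hle : ∀ x ∈ S, ∀ y ∈ S, H.Adj x y → H'.Adj x y)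
    (hab : a ∈ S → b ∈ S → H.Adj v a → H.Adj v b → a ≠ b → H'.Adj a b)
    (h : PlS H' S) : PlS H (insert v S) := by
  refine ⟨fun hm => h.1 (minor_del ?_ hN hle hab hm), fun hm => h.2 (minor_del ?_ hN hle hab hm)⟩
  · decide
  · have key : ∀ w a b : Fin 3 ⊕ Fin 3, ∃ w' : Fin 3 ⊕ Fin 3,
        ((w.isLeft = true ∧ w'.isRight = true) ∨ (w.isRight = true ∧ w'.isLeft = true)) ∧
          w' ≠ a ∧ w' ≠ b := by decide
    exact key

theorem plS_comp {V : Type} {H : SimpleGraph V} {S : Set V} {Z : Finset V}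
    (hcard : Z.card ≤ 4) (hZ : ∀ z ∈ Z, ∀ y ∈ S, y ∉ Z → ¬ H.Adj z y)
    (h : PlS H (S \ (Z : Set V))) : PlS H S := by
  refine ⟨fun hm => h.1 (minor_comp ?_ ?_ hZ hm), fun hm => h.2 (minor_comp ?_ ?_ hZ hm)⟩
  · rintro P hP ⟨w, hw⟩ w'
    by_cases hww : w = w'
    · rw [← hww]; exact hw
    · exact hP w w' hww hw
  · simp only [Fintype.card_fin]; omega
  · rintro P hP ⟨w, hw⟩ w'
    have hl : ∀ i j, P (Sum.inl i) → P (Sum.inr j) := fun i j h => hP _ _ (by simp) h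
    have hr : ∀ i j, P (Sum.inr i) → P (Sum.inl j) := fun i j h => hP _ _ (by simp) h
    rcases w with i | i <;> rcases w' with j | j
    · exact hr 0 j (hl i 0 hw)
    · exact hl i j hw
    · exact hr i j hw
    · exact hl 0 j (hr i 0 hw)
  · simp only [Fintype.card_sum, Fintype.card_fin]; omega

end Pool.Agent.Helper93.Plz
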