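import Pool.Agent.Helper93.Plz.Minor

set_option autoImplicit false

/-!
# Planarization of subcubic graphs (MP_8e7d5e_co)

A graph of maximum degree at most 3 without `K_4`, with `n_3` vertices of degree 3 and `t` pairwise
disjoint triangles all of whose vertices have degree 3, can be made planar by deleting at most
`(n_3 - t) / 4` vertices.
-/

namespace Pool.Agent.Helper93.Plz

variable {V : Type} [DecidableEq V]

open Classical in
/-- The neighbours of `x` in `U`. -/
noncomputable def nb (H : SimpleGraph V) (U : Finset V) (x : V) : Finset V :=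
  U.filter fun y => H.Adj x y

omit [DecidableEq V] in
theorem mem_nb {H : SimpleGraph V} {U : Finset V} {x y : V} :
    y ∈ nb H U x ↔ y ∈ U ∧ H.Adj x y := by
  classical
  rw [nb, Finset.mem_filter]

/-- The number of neighbours of `x` in `U`. -/
noncomputable def dg (H : SimpleGraph V) (U : Finset V) (x : V) : ℕ := (nb H U x).card

open Classical in
/-- The vertices of degree 3. -/
noncomputable def B3 (H : SimpleGraph V) (U : Finset V) : Finset V :=
  U.filter fun x => dg H U x = 3

omit [DecidableEq V] in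
theorem mem_B3 {H : SimpleGraph V} {U : Finset V} {x : V} :
    x ∈ B3 H U ↔ x ∈ U ∧ dg H U x = 3 := by
  classical
  rw [B3, Finset.mem_filter]

/-- A triangle of vertices of degree 3. -/
structure Tri (H : SimpleGraph V) (U T : Finset V) : Prop where
  sub : T ⊆ U
  card : T.card = 3
  adj : ∀ x ∈ T, ∀ y ∈ T, x ≠ y → H.Adj x y
  deg : ∀ x ∈ T, dg H U x = 3

/-- No `K_4` in `U`. -/
def K4free (H : SimpleGraph V) (U : Finset V) : Prop :=
  ∀ Z ⊆ U, Z.card = 4 → ¬ ∀ x ∈ Z, ∀ y ∈ Z, x ≠ y → H.Adj x y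

/-- Pairwise disjoint. -/
def PD (TT : Finset (Finset V)) : Prop := ∀ T ∈ TT, ∀ T' ∈ TT, T ≠ T' → Disjoint T T'

/-- The statement to be proved by induction. -/
def Good (H : SimpleGraph V) (U : Finset V) : Prop :=
  ∀ TT : Finset (Finset V), (∀ T ∈ TT, Tri H U T) → PD TT →
    ∃ R ⊆ U, PlS H ((U \ R : Finset V) : Set V) ∧ 4 * R.card + TT.card ≤ (B3 H U).card

omit [DecidableEq V] in
theorem nb_mono {H : SimpleGraph V} {U U' : Finset V} (h : U' ⊆ U) (x : V) :
    nb H U' x ⊆ nb H U x := by
  intro y hy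
  rw [mem_nb] at hy ⊢
  exact ⟨h hy.1, hy.2⟩

omit [DecidableEq V] in
theorem dg_mono {H : SimpleGraph V} {U U' : Finset V} (h : U' ⊆ U) (x : V) :
    dg H U' x ≤ dg H U x := Finset.card_le_card (nb_mono h x)

omit [DecidableEq V] in
theorem dg_lt {H : SimpleGraph V} {U U' : Finset V} (h : U' ⊆ U) {x y : V} (hy : y ∈ U)
    (hy' : y ∉ U') (hxy : H.Adj x y) : dg H U' x < dg H U x := by
  refine Finset.card_lt_card (Finset.ssubset_iff_subset_ne.mpr ⟨nb_mono h x, fun he => ?_⟩)
  have : y ∈ nb H U x := mem_nb.mpr ⟨hy, hxy⟩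
  rw [← he] at this
  exact hy' (mem_nb.mp this).1

/-- A family of pairwise disjoint sets meeting `D` has at most `|D|` members. -/
theorem card_le_of_meet {LL : Finset (Finset V)} {D : Finset V} (hd : PD LL)
    (hm : ∀ T ∈ LL, ¬ Disjoint T D) : LL.card ≤ D.card := by
  have h1 : (LL.biUnion fun T => T ∩ D).card = ∑ T ∈ LL, (T ∩ D).card := by
    refine Finset.card_biUnion ?_
    intro T hT T' hT' hne
    exact (hd T hT T' hT' hne).mono Finset.inter_subset_left Finset.inter_subset_left
  have h2 : (LL.biUnion fun T => T ∩ D) ⊆ D := by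
    intro x hx
    obtain ⟨T, -, hx⟩ := Finset.mem_biUnion.mp hx
    exact (Finset.mem_inter.mp hx).2
  calc LL.card = ∑ T ∈ LL, 1 := by simp
    _ ≤ ∑ T ∈ LL, (T ∩ D).card := Finset.sum_le_sum fun T hT => by
        obtain ⟨x, hx, hx'⟩ := Finset.not_disjoint_iff.mp (hm T hT)
        exact Finset.card_pos.mpr ⟨x, Finset.mem_inter.mpr ⟨hx, hx'⟩⟩
    _ = (LL.biUnion fun T => T ∩ D).card := h1.symm
    _ ≤ D.card := Finset.card_le_card h2

/-- The counting step when no vertex is deleted. -/
theorem step_zero {H H' : SimpleGraph V} {U U' : Finset V} (hU : U' ⊆ U)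
    (hsub : ∀ x ∈ U, dg H U x ≤ 3) (hdeg : ∀ x ∈ U', dg H' U' x ≤ dg H U x)
    (hle : ∀ x y, H.Adj x y → H'.Adj x y)
    (htr : ∀ R ⊆ U', PlS H' ((U' \ R : Finset V) : Set V) → PlS H ((U \ R : Finset V) : Set V))
    (hG : Good H' U') : Good H U := by
  classical
  intro TT hT hd
  set D := B3 H U \ B3 H' U' with hD
  set TT' := TT.filter fun T => Disjoint T D with hTT'
  set LL := TT.filter fun T => ¬ Disjoint T D with hLL
  have h1 : TT'.card + LL.card = TT.card := by
    rw [hTT', hLL]
    exact Finset.card_filter_add_card_filter_not (s := TT) (p := fun T => Disjoint T D)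
  have h2 : LL.card ≤ D.card := by
    refine card_le_of_meet ?_ ?_
    · intro T hT' T' hT'' hne
      exact hd T (Finset.mem_filter.mp hT').1 T' (Finset.mem_filter.mp hT'').1 hne
    · intro T hT'
      exact (Finset.mem_filter.mp hT').2
  have h3 : B3 H' U' ⊆ B3 H U := by
    intro x hx
    rw [mem_B3] at hx ⊢
    refine ⟨hU hx.1, ?_⟩
    have := hdeg x hx.1
    have := hsub x (hU hx.1)
    omega
  have h4 : (B3 H' U').card + D.card = (B3 H U).card := by
    rw [hD, add_comm]
    exact Finset.card_sdiff_add_card_eq_card h3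
  obtain ⟨R, hR, hpl, hc⟩ := hG TT' (by
    intro T hT'
    have hTT := hT T (Finset.mem_filter.mp hT').1
    have hdis := (Finset.mem_filter.mp hT').2
    have key : ∀ x ∈ T, x ∈ B3 H' U' := by
      intro x hx
      by_contra hcon
      exact Finset.disjoint_left.mp hdis hx (Finset.mem_sdiff.mpr
        ⟨mem_B3.mpr ⟨hTT.sub hx, hTT.deg x hx⟩, hcon⟩)
    exact ⟨fun x hx => (mem_B3.mp (key x hx)).1, hTT.card,
      fun x hx y hy hxy => hle x y (hTT.adj x hx y hy hxy), fun x hx => (mem_B3.mp (key x hx)).2⟩)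
    (by
      intro T hT' T' hT'' hne
      exact hd T (Finset.mem_filter.mp hT').1 T' (Finset.mem_filter.mp hT'').1 hne)
  exact ⟨R, hR.trans hU, htr R hR hpl, by omega⟩

/-- The graph `H` with the edge `ab` added. -/
def addE (H : SimpleGraph V) (a b : V) : SimpleGraph V where
  Adj x y := H.Adj x y ∨ (x ≠ y ∧ ((x = a ∧ y = b) ∨ (x = b ∧ y = a)))
  symm := ⟨fun x y h => by
    rcases h with h | ⟨h1, h2⟩
    · exact Or.inl h.symm
    · exact Or.inr ⟨h1.symm, by tauto⟩⟩
  loopless := ⟨fun x h => by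
    rcases h with h | ⟨h1, _⟩
    · exact H.loopless.irrefl x h
    · exact h1 rfl⟩

/-- Degrees do not increase when a vertex with two neighbours is replaced by an edge. -/
theorem dg_addE {H : SimpleGraph V} {U : Finset V} {v a b : V} (hv : v ∈ U)
    (hab : a ≠ b → H.Adj v a ∧ H.Adj v b) (x : V) :
    dg (addE H a b) (U.erase v) x ≤ dg H U x := by
  by_cases hne : a = b
  · subst hne
    refine Finset.card_le_card ?_
    intro y hy
    rw [mem_nb] at hy ⊢
    refine ⟨Finset.mem_of_mem_erase hy.1, ?_⟩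
    rcases hy.2 with h | ⟨h1, h2⟩
    · exact h
    · exfalso; apply h1; rcases h2 with ⟨h, h'⟩ | ⟨h, h'⟩ <;> rw [h, h']
  obtain ⟨hva, hvb⟩ := hab hne
  have key : ∀ c e : V, c ≠ e → H.Adj v c → ((c = a ∧ e = b) ∨ (c = b ∧ e = a)) →
      dg (addE H a b) (U.erase v) c ≤ dg H U c := by
    intro c e hce hvc hcase
    have h1 : nb (addE H a b) (U.erase v) c ⊆ insert e ((nb H U c).erase v) := by
      intro y hy
      rw [mem_nb] at hy
      rw [Finset.mem_insert, Finset.mem_erase, mem_nb]
      rcases hy.2 with h | ⟨h1, h2⟩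
      · exact Or.inr ⟨Finset.ne_of_mem_erase hy.1, Finset.mem_of_mem_erase hy.1, h⟩
      · left
        rcases hcase with ⟨h3, h4⟩ | ⟨h3, h4⟩ <;> rcases h2 with ⟨h5, h6⟩ | ⟨h5, h6⟩
        · rw [h6, h4]
        · exact absurd (h3.symm.trans h5) hne
        · exact absurd (h5.symm.trans h3) hne
        · rw [h6, h4]
    have h2 : v ∈ nb H U c := mem_nb.mpr ⟨hv, hvc.symm⟩
    calc dg (addE H a b) (U.erase v) c ≤ (insert e ((nb H U c).erase v)).card :=
          Finset.card_le_card h1
      _ ≤ ((nb H U c).erase v).card + 1 := Finset.card_insert_le _ _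
      _ = dg H U c := Finset.card_erase_add_one h2
  by_cases hxa : x = a
  · subst hxa
    exact key x b hne hva (Or.inl ⟨rfl, rfl⟩)
  by_cases hxb : x = b
  · subst hxb
    exact key x a (Ne.symm hne) hvb (Or.inr ⟨rfl, rfl⟩)
  refine Finset.card_le_card ?_
  intro y hy
  rw [mem_nb] at hy ⊢
  refine ⟨Finset.mem_of_mem_erase hy.1, ?_⟩
  rcases hy.2 with h | ⟨h1, h2⟩
  · exact h
  · exfalso
    rcases h2 with ⟨h, h'⟩ | ⟨h, h'⟩
    · exact hxa h
    · exact hxb h

theorem nb_of_le_two {H : SimpleGraph V} {U : Finset V} {v : V} (h : dg H U v ≤ 2) :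
    ∃ a b : V, (∀ y ∈ U, H.Adj v y → y = a ∨ y = b) ∧ (a ≠ b → H.Adj v a ∧ H.Adj v b) := by
  have h' : (nb H U v).card ≤ 2 := h
  interval_cases hc : (nb H U v).card
  · refine ⟨v, v, fun y hy hvy => ?_, fun h => absurd rfl h⟩
    have : y ∈ nb H U v := mem_nb.mpr ⟨hy, hvy⟩
    rw [Finset.card_eq_zero.mp hc] at this
    exact absurd this (Finset.notMem_empty y)
  · obtain ⟨a, ha⟩ := Finset.card_eq_one.mp hc
    refine ⟨a, a, fun y hy hvy => ?_, fun h => absurd rfl h⟩
    have : y ∈ nb H U v := mem_nb.mpr ⟨hy, hvy⟩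
    rw [ha, Finset.mem_singleton] at this
    exact Or.inl this
  · obtain ⟨a, b, hab, hs⟩ := Finset.card_eq_two.mp hc
    refine ⟨a, b, fun y hy hvy => ?_, fun _ => ⟨?_, ?_⟩⟩
    · have : y ∈ nb H U v := mem_nb.mpr ⟨hy, hvy⟩
      rw [hs, Finset.mem_insert, Finset.mem_singleton] at this
      exact this
    · have : a ∈ nb H U v := by rw [hs]; exact Finset.mem_insert_self _ _
      exact (mem_nb.mp this).2
    · have : b ∈ nb H U v := by rw [hs]; exact Finset.mem_insert_of_mem (Finset.mem_singleton_self _)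
      exact (mem_nb.mp this).2

/-- A `K_4` in a subcubic graph is a component. -/
theorem k4_comp {H : SimpleGraph V} {U Z : Finset V} (hsub : ∀ x ∈ U, dg H U x ≤ 3)
    (hZU : Z ⊆ U) (hZ4 : Z.card = 4) (hZ : ∀ x ∈ Z, ∀ y ∈ Z, x ≠ y → H.Adj x y) :
    ∀ z ∈ Z, ∀ y ∈ U, y ∉ Z → ¬ H.Adj z y := by
  intro z hz y hy hyZ hzy
  have h1 : insert y (Z.erase z) ⊆ nb H U z := by
    intro x hx
    rw [mem_nb]
    rcases Finset.mem_insert.mp hx with h | h
    · rw [h]; exact ⟨hy, hzy⟩
    · exact ⟨hZU (Finset.mem_of_mem_erase h),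
        hZ z hz x (Finset.mem_of_mem_erase h) (Finset.ne_of_mem_erase h).symm⟩
  have h2 : (insert y (Z.erase z)).card = 4 := by
    rw [Finset.card_insert_of_notMem (fun h => hyZ (Finset.mem_of_mem_erase h)),
      Finset.card_erase_of_mem hz, hZ4]
  have h3 := Finset.card_le_card h1
  have h4 : (nb H U z).card ≤ 3 := hsub z (hZU hz)
  omega

/-- The step for a vertex of degree at most 2. -/
theorem step_two {H : SimpleGraph V} {U : Finset V} {v : V} (hv : v ∈ U)
    (hv2 : dg H U v ≤ 2) (hsub : ∀ x ∈ U, dg H U x ≤ 3) (hK : K4free H U)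
    (ih : ∀ (H' : SimpleGraph V) (U' : Finset V), U'.card < U.card →
      (∀ x ∈ U', dg H' U' x ≤ 3) → K4free H' U' → Good H' U') : Good H U := by
  obtain ⟨a, b, hab1, hab2⟩ := nb_of_le_two hv2
  set H' := addE H a b with hH'
  have hle : ∀ x y, H.Adj x y → H'.Adj x y := fun x y h => Or.inl h
  have hdeg : ∀ x, dg H' (U.erase v) x ≤ dg H U x := dg_addE hv hab2
  have hU1 : U.erase v ⊆ U := Finset.erase_subset v U
  have hsub1 : ∀ x ∈ U.erase v, dg H' (U.erase v) x ≤ 3 := fun x hx =>
    (hdeg x).trans (hsub x (hU1 hx))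
  have hpl : ∀ R ⊆ U.erase v, PlS H' ((U.erase v \ R : Finset V) : Set V) →
      PlS H ((U \ R : Finset V) : Set V) := by
    intro R hR hp
    have he : ((U \ R : Finset V) : Set V) = insert v ((U.erase v \ R : Finset V) : Set V) := by
      ext x
      simp only [Finset.coe_sdiff, Finset.coe_erase, Set.mem_sdiff, Finset.mem_coe,
        Set.mem_insert_iff, Set.mem_singleton_iff]
      constructor
      · rintro ⟨h1, h2⟩
        by_cases hxv : x = v
        · exact Or.inl hxv
        · exact Or.inr ⟨⟨h1, hxv⟩, h2⟩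
      · rintro (h | ⟨⟨h1, h2⟩, h3⟩)
        · subst h
          exact ⟨hv, fun h => Finset.notMem_erase x U (hR h)⟩
        · exact ⟨h1, h3⟩
    rw [he]
    refine plS_insert (a := a) (b := b) (H' := H') ?_ (fun x _ y _ h => hle x y h) ?_ hp
    · intro y hy hvy
      exact hab1 y (hU1 (Finset.mem_sdiff.mp (Finset.mem_coe.mp hy)).1) hvy
    · intro _ _ _ _ hne
      exact Or.inr ⟨hne, Or.inl ⟨rfl, rfl⟩⟩
  by_cases hK1 : K4free H' (U.erase v)
  · exact step_zero hU1 hsub (fun x _ => hdeg x) hle hpl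
      (ih H' _ (Finset.card_erase_lt_of_mem hv) hsub1 hK1)
  · unfold K4free at hK1
    push Not at hK1
    obtain ⟨Z, hZU, hZ4, hZ⟩ := hK1
    have hin : ∀ Z' ⊆ U.erase v, Z'.card = 4 → (∀ x ∈ Z', ∀ y ∈ Z', x ≠ y → H'.Adj x y) →
        a ∈ Z' := by
      intro Z' hZ'U hZ'4 hZ'
      by_contra ha
      refine hK Z' (hZ'U.trans hU1) hZ'4 ?_
      intro x hx y hy hxy
      rcases hZ' x hx y hy hxy with h | ⟨_, h2⟩
      · exact h
      · exfalso
        rcases h2 with ⟨h3, _⟩ | ⟨_, h3⟩
        · exact ha (by rw [← h3]; exact hx)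
        · exact ha (by rw [← h3]; exact hy)
    have haZ := hin Z hZU hZ4 hZ
    have hU2 : U.erase v \ Z ⊆ U.erase v := Finset.sdiff_subset
    refine step_zero (hU2.trans hU1) hsub (fun x _ => (dg_mono hU2 x).trans (hdeg x)) hle ?_
      (ih H' _ ?_ (fun x hx => (dg_mono hU2 x).trans (hsub1 x (hU2 hx))) ?_)
    · intro R hR hp
      refine hpl R (hR.trans hU2) (plS_comp (Z := Z) (by omega) ?_ ?_)
      · intro z hz y hy hyZ
        exact k4_comp hsub1 hZU hZ4 hZ z hz y
          (Finset.mem_sdiff.mp (Finset.mem_coe.mp hy)).1 hyZ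
      · have he : ((U.erase v \ R : Finset V) : Set V) \ (Z : Set V) =
            (((U.erase v \ Z) \ R : Finset V) : Set V) := by
          ext x
          simp only [Finset.coe_sdiff, Finset.coe_erase, Set.mem_sdiff, Finset.mem_coe,
            Set.mem_singleton_iff]
          tauto
        rw [he]
        exact hp
    · exact lt_of_le_of_lt (Finset.card_le_card hU2) (Finset.card_erase_lt_of_mem hv)
    · intro Z' hZ'U hZ'4 hZ'
      have h1 := hin Z' (hZ'U.trans hU2) hZ'4 hZ'
      exact (Finset.mem_sdiff.mp (hZ'U h1)).2 haZ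

/-- The neighbours of a vertex of a triangle, if one neighbour outside is known. -/
theorem tri_nb {H : SimpleGraph V} {U T : Finset V} (hT : Tri H U T) {m v : V} (hm : m ∈ T)
    (hv : v ∈ U) (hvT : v ∉ T) (hmv : H.Adj m v) {x : V} (hx : x ∈ U) (hmx : H.Adj m x) :
    x = v ∨ x ∈ T := by
  have h1 : insert v (T.erase m) ⊆ nb H U m := by
    intro y hy
    rw [mem_nb]
    rcases Finset.mem_insert.mp hy with h | h
    · rw [h]; exact ⟨hv, hmv⟩
    · exact ⟨hT.sub (Finset.mem_of_mem_erase h),
        hT.adj m hm y (Finset.mem_of_mem_erase h) (Finset.ne_of_mem_erase h).symm⟩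
  have h2 : (insert v (T.erase m)).card = 3 := by
    rw [Finset.card_insert_of_notMem (fun h => hvT (Finset.mem_of_mem_erase h)),
      Finset.card_erase_of_mem hm, hT.card]
  have h3 : (nb H U m).card = 3 := hT.deg m hm
  have h4 := Finset.eq_of_subset_of_card_le h1 (by omega)
  have h5 : x ∈ nb H U m := mem_nb.mpr ⟨hx, hmx⟩
  rw [← h4] at h5
  rcases Finset.mem_insert.mp h5 with h | h
  · exact Or.inl h
  · exact Or.inr (Finset.mem_of_mem_erase h)

open Classical in
/-- The neighbours of `v` that lie in a triangle of the family. -/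
noncomputable def MM (H : SimpleGraph V) (U : Finset V) (v : V) (TT : Finset (Finset V)) :
    Finset V := (nb H U v).filter fun m => ∃ T ∈ TT, m ∈ T

open Classical in
/-- The triangles of the family that contain a neighbour of `v`. -/
noncomputable def hit (H : SimpleGraph V) (v : V) (TT : Finset (Finset V)) :
    Finset (Finset V) := TT.filter fun T => ∃ m ∈ T, H.Adj v m

/-- The step where the vertex `v` is deleted. -/
theorem step_rem {H : SimpleGraph V} {U : Finset V} {v : V} (hv : v ∈ U)
    (hcub : ∀ x ∈ U, dg H U x = 3) (hK : K4free H U)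
    (ih : ∀ (H' : SimpleGraph V) (U' : Finset V), U'.card < U.card →
      (∀ x ∈ U', dg H' U' x ≤ 3) → K4free H' U' → Good H' U')
    (TT : Finset (Finset V)) (hT : ∀ T ∈ TT, Tri H U T) (hd : PD TT) (hvT : ∀ T ∈ TT, v ∉ T) :
    ∃ R ⊆ U, PlS H ((U \ R : Finset V) : Set V) ∧
      4 * R.card + TT.card + 2 * (hit H v TT).card ≤ (B3 H U).card + (MM H U v TT).card := by
  classical
  set M := MM H U v TT with hM
  set h := hit H v TT with hh
  have hMmem : ∀ m, m ∈ M ↔ m ∈ nb H U v ∧ ∃ T ∈ TT, m ∈ T := by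
    intro m
    rw [hM, MM, Finset.mem_filter]
  have hhmem : ∀ T, T ∈ h ↔ T ∈ TT ∧ ∃ m ∈ T, H.Adj v m := by
    intro T
    rw [hh, hit, Finset.mem_filter]
  set U1 := U \ insert v M with hU1
  have hU1U : U1 ⊆ U := Finset.sdiff_subset
  have hvU1 : v ∉ U1 := fun h => (Finset.mem_sdiff.mp h).2 (Finset.mem_insert_self _ _)
  have hcard1 : U1.card < U.card :=
    Finset.card_lt_card (Finset.ssubset_iff_subset_ne.mpr ⟨hU1U, fun he => hvU1 (by rw [he]; exact hv)⟩)
  have hnbM : ∀ m ∈ M, ∃ T ∈ TT, m ∈ T ∧ ∀ x ∈ U, H.Adj m x → x = v ∨ x ∈ T := by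
    intro m hm
    obtain ⟨hm1, T, hTT, hmT⟩ := (hMmem m).mp hm
    exact ⟨T, hTT, hmT, fun x hx hmx => tri_nb (hT T hTT) hmT hv (hvT T hTT)
      (mem_nb.mp hm1).2.symm hx hmx⟩
  -- the surviving triangles
  set TT1 := TT \ h with hTT1
  have hhTT : h ⊆ TT := by
    intro T hT'
    exact ((hhmem T).mp hT').1
  have hTT1c : TT1.card + h.card = TT.card := Finset.card_sdiff_add_card_eq_card hhTT
  have hTri1 : ∀ T ∈ TT1, Tri H U1 T := by
    intro T hT1
    obtain ⟨hTT', hTh⟩ := Finset.mem_sdiff.mp hT1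
    have hTr := hT T hTT'
    have hnohit : ∀ x ∈ T, ¬ H.Adj v x := fun x hx hvx => hTh ((hhmem T).mpr ⟨hTT', x, hx, hvx⟩)
    have hsubU1 : T ⊆ U1 := by
      intro x hx
      refine Finset.mem_sdiff.mpr ⟨hTr.sub hx, fun hx' => ?_⟩
      rcases Finset.mem_insert.mp hx' with h' | h'
      · exact hvT T hTT' (by rw [← h']; exact hx)
      · exact hnohit x hx (mem_nb.mp ((hMmem x).mp h').1).2
    refine ⟨hsubU1, hTr.card, hTr.adj, ?_⟩
    intro x hx
    have : nb H U1 x = nb H U x := by
      refine Finset.Subset.antisymm (nb_mono hU1U x) ?_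
      intro y hy
      rw [mem_nb] at hy ⊢
      refine ⟨Finset.mem_sdiff.mpr ⟨hy.1, fun hy' => ?_⟩, hy.2⟩
      rcases Finset.mem_insert.mp hy' with h' | h'
      · subst h'
        exact hnohit x hx hy.2.symm
      · obtain ⟨T', hTT'', hyT', hyn⟩ := hnbM y h'
        rcases hyn x (hTr.sub hx) hy.2.symm with h'' | h''
        · exact hvT T hTT' (by rw [← h'']; exact hx)
        · have : T = T' := by
            by_contra hne
            exact Finset.disjoint_left.mp (hd T hTT' T' hTT'' hne) hx h''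
          subst this
          exact hnohit y hyT' (mem_nb.mp ((hMmem y).mp h').1).2
    rw [dg, this]
    exact hTr.deg x hx
  -- the lost vertices
  set D := insert v (nb H U v \ M ∪ h.biUnion id) with hD
  have hDU : D ⊆ U := by
    intro x hx
    rcases Finset.mem_insert.mp hx with h' | h'
    · rw [h']; exact hv
    rcases Finset.mem_union.mp h' with h'' | h''
    · exact (mem_nb.mp (Finset.mem_sdiff.mp h'').1).1
    · obtain ⟨T, hTh, hxT⟩ := Finset.mem_biUnion.mp h''
      exact (hT T (hhTT hTh)).sub hxT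
  have hDdis : Disjoint (B3 H U1) D := by
    rw [Finset.disjoint_left]
    intro x hx hxD
    obtain ⟨hxU1, hx3⟩ := mem_B3.mp hx
    rcases Finset.mem_insert.mp hxD with h' | h'
    · exact hvU1 (by rw [← h']; exact hxU1)
    rcases Finset.mem_union.mp h' with h'' | h''
    · have hvx := (mem_nb.mp (Finset.mem_sdiff.mp h'').1).2
      have := dg_lt hU1U (x := x) hv hvU1 hvx.symm
      have := hcub x (hU1U hxU1)
      omega
    · obtain ⟨T, hTh, hxT⟩ := Finset.mem_biUnion.mp h''
      obtain ⟨hTT', m, hmT, hvm⟩ := (hhmem T).mp hTh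
      have hmU := (hT T hTT').sub hmT
      have hmM : m ∈ M := (hMmem m).mpr ⟨mem_nb.mpr ⟨hmU, hvm⟩, T, hTT', hmT⟩
      have hmU1 : m ∉ U1 := fun h' => (Finset.mem_sdiff.mp h').2 (Finset.mem_insert_of_mem hmM)
      have hxm : x ≠ m := fun he => hmU1 (by rw [← he]; exact hxU1)
      have := dg_lt hU1U (x := x) hmU hmU1 ((hT T hTT').adj x hxT m hmT hxm)
      have := hcub x (hU1U hxU1)
      omega
  have hDcard : D.card + M.card = 4 + 3 * h.card := by
    have h1 : v ∉ nb H U v \ M ∪ h.biUnion id := by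
      intro hv'
      rcases Finset.mem_union.mp hv' with h'' | h''
      · exact H.loopless.irrefl v (mem_nb.mp (Finset.mem_sdiff.mp h'').1).2
      · obtain ⟨T, hTh, hxT⟩ := Finset.mem_biUnion.mp h''
        exact hvT T (hhTT hTh) hxT
    have h2 : Disjoint (nb H U v \ M) (h.biUnion id) := by
      rw [Finset.disjoint_left]
      intro x hx hx'
      obtain ⟨T, hTh, hxT⟩ := Finset.mem_biUnion.mp hx'
      obtain ⟨hx1, hx2⟩ := Finset.mem_sdiff.mp hx
      exact hx2 ((hMmem x).mpr ⟨hx1, T, hhTT hTh, hxT⟩)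
    have h3 : (h.biUnion id).card = 3 * h.card := by
      have h3' : (h.biUnion id).card = ∑ T ∈ h, (id T : Finset V).card :=
        Finset.card_biUnion (fun T hT' T' hT'' hne => hd T (hhTT hT') T' (hhTT hT'') hne)
      have h3'' : ∑ T ∈ h, (id T : Finset V).card = ∑ T ∈ h, 3 :=
        Finset.sum_congr rfl fun T hT' => (hT T (hhTT hT')).card
      rw [h3', h3'', Finset.sum_const, smul_eq_mul, mul_comm]
    have h4 : M ⊆ nb H U v := fun m hm => ((hMmem m).mp hm).1
    have h5 := Finset.card_sdiff_add_card_eq_card h4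
    have h6 : (nb H U v).card = 3 := hcub v hv
    rw [hD, Finset.card_insert_of_notMem h1, Finset.card_union_of_disjoint h2, h3]
    omega
  have hB3 : (B3 H U1).card + D.card ≤ (B3 H U).card := by
    rw [← Finset.card_union_of_disjoint hDdis]
    refine Finset.card_le_card ?_
    intro x hx
    have hxU : x ∈ U := by
      rcases Finset.mem_union.mp hx with h' | h'
      · exact hU1U (mem_B3.mp h').1
      · exact hDU h'
    exact mem_B3.mpr ⟨hxU, hcub x hxU⟩
  obtain ⟨R1, hR1, hp1, hc1⟩ := ih H U1 hcard1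
    (fun x hx => (dg_mono hU1U x).trans (hcub x (hU1U hx)).le)
    (fun Z hZ => hK Z (hZ.trans hU1U)) TT1 hTri1
    (fun T hT' T' hT'' hne => hd T (Finset.sdiff_subset hT') T' (Finset.sdiff_subset hT'') hne)
  refine ⟨insert v R1, Finset.insert_subset hv (hR1.trans hU1U), ?_, ?_⟩
  · -- add the vertices of `M` one by one
    have hadd : ∀ M' ⊆ M, PlS H (((U1 \ R1) ∪ M' : Finset V) : Set V) := by
      intro M'
      induction M' using Finset.induction_on with
      | empty => intro _; rw [Finset.union_empty]; exact hp1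
      | insert m M' hm ihM =>
        intro hsub
        have hmM := hsub (Finset.mem_insert_self m M')
        have ihM' := ihM ((Finset.subset_insert m M').trans hsub)
        obtain ⟨T, hTT', hmT, hnbm⟩ := hnbM m hmM
        have hc2 : (T.erase m).card = 2 := by
          rw [Finset.card_erase_of_mem hmT, (hT T hTT').card]
        obtain ⟨y, z, hyz, hTe⟩ := Finset.card_eq_two.mp hc2
        have hyT : y ∈ T := Finset.mem_of_mem_erase (by rw [hTe]; exact Finset.mem_insert_self _ _)
        have hzT : z ∈ T := Finset.mem_of_mem_erase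
          (by rw [hTe]; exact Finset.mem_insert_of_mem (Finset.mem_singleton_self _))
        have he : (((U1 \ R1) ∪ insert m M' : Finset V) : Set V) =
            insert m (((U1 \ R1) ∪ M' : Finset V) : Set V) := by
          ext x
          simp only [Finset.coe_union, Finset.coe_insert, Set.mem_union, Set.mem_insert_iff]
          tauto
        rw [he]
        refine plS_insert (a := y) (b := z) (H' := H) ?_ (fun x _ y _ h => h) ?_ ihM'
        · intro x hx hmx
          have hxU : x ∈ U := by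
            rcases Finset.mem_union.mp (Finset.mem_coe.mp hx) with h' | h'
            · exact hU1U (Finset.sdiff_subset h')
            · exact (mem_nb.mp ((hMmem x).mp (hsub (Finset.mem_insert_of_mem h'))).1).1
          have hxv : x ≠ v := by
            rintro rfl
            rcases Finset.mem_union.mp (Finset.mem_coe.mp hx) with h' | h'
            · exact hvU1 (Finset.sdiff_subset h')
            · obtain ⟨hx1, _⟩ := (hMmem x).mp (hsub (Finset.mem_insert_of_mem h'))
              exact H.loopless.irrefl x (mem_nb.mp hx1).2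
          have hxT : x ∈ T := (hnbm x hxU hmx).resolve_left hxv
          have : x ∈ T.erase m := Finset.mem_erase.mpr ⟨hmx.ne', hxT⟩
          rw [hTe, Finset.mem_insert, Finset.mem_singleton] at this
          exact this
        · intro _ _ _ _ hne
          exact (hT T hTT').adj y hyT z hzT hne
    have hMR : ((U \ insert v R1 : Finset V) : Set V) =
        (((U1 \ R1) ∪ M : Finset V) : Set V) := by
      ext x
      simp only [Finset.mem_coe, Finset.mem_sdiff, Finset.mem_union, Finset.mem_insert, hU1]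
      constructor
      · rintro ⟨h1, h2⟩
        by_cases hxM : x ∈ M
        · exact Or.inr hxM
        · left; tauto
      · rintro (⟨⟨h1, h2⟩, h3⟩ | h1)
        · tauto
        · obtain ⟨hx1, _⟩ := (hMmem x).mp h1
          refine ⟨(mem_nb.mp hx1).1, ?_⟩
          rintro (h2 | h2)
          · subst h2
            exact H.loopless.irrefl x (mem_nb.mp hx1).2
          · exact (Finset.mem_sdiff.mp (hR1 h2)).2 (Finset.mem_insert_of_mem h1)
    rw [hMR]
    exact hadd M Finset.Subset.rfl
  · have hvR1 : v ∉ R1 := fun h' => hvU1 (hR1 h')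
    rw [Finset.card_insert_of_notMem hvR1]
    omega

/-- Planarization of subcubic graphs without `K_4`. -/
theorem good_of_k4free : ∀ (n : ℕ) (H : SimpleGraph V) (U : Finset V), U.card = n →
    (∀ x ∈ U, dg H U x ≤ 3) → K4free H U → Good H U := by
  classical
  intro n
  induction n using Nat.strong_induction_on with
  | _ n IH =>
  intro H U hn hsub hK
  have ih : ∀ (H' : SimpleGraph V) (U' : Finset V), U'.card < U.card →
      (∀ x ∈ U', dg H' U' x ≤ 3) → K4free H' U' → Good H' U' :=
    fun H' U' h' => IH U'.card (by omega) H' U' rfl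
  by_cases h2 : ∃ v ∈ U, dg H U v ≤ 2
  · obtain ⟨v, hv, hv2⟩ := h2
    exact step_two hv hv2 hsub hK ih
  push Not at h2
  have hcub : ∀ x ∈ U, dg H U x = 3 := fun x hx => by
    have := h2 x hx
    have := hsub x hx
    omega
  intro TT hT hd
  rcases Finset.eq_empty_or_nonempty U with hU | ⟨v0, hv0⟩
  · subst hU
    refine ⟨∅, Finset.Subset.rfl, ?_, ?_⟩
    · have : ((∅ \ ∅ : Finset V) : Set V) = ∅ := by simp
      rw [this]
      exact plS_empty H
    · have : TT = ∅ := by
        rw [Finset.eq_empty_iff_forall_notMem]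
        intro T hT'
        have h1 := (hT T hT').sub
        have h3 := (hT T hT').card
        rw [Finset.subset_empty] at h1
        rw [h1] at h3
        simp at h3
      rw [this]
      simp
  by_cases hcov : ∃ v ∈ U, ∀ T ∈ TT, v ∉ T
  · obtain ⟨v, hv, hvT⟩ := hcov
    obtain ⟨R, hR, hp, hc⟩ := step_rem hv hcub hK ih TT hT hd hvT
    refine ⟨R, hR, hp, ?_⟩
    have hM : (MM H U v TT).card ≤ 2 * (hit H v TT).card := by
      have h1 : MM H U v TT ⊆ (hit H v TT).biUnion fun T => T ∩ nb H U v := by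
        intro m hm
        rw [MM, Finset.mem_filter] at hm
        obtain ⟨hm1, T, hTT, hmT⟩ := hm
        refine Finset.mem_biUnion.mpr ⟨T, ?_, Finset.mem_inter.mpr ⟨hmT, hm1⟩⟩
        rw [hit, Finset.mem_filter]
        exact ⟨hTT, m, hmT, (mem_nb.mp hm1).2⟩
      refine (Finset.card_le_card h1).trans ?_
      refine (Finset.card_biUnion_le_card_mul _ _ 2 ?_).trans (by rw [mul_comm])
      intro T hTh
      have hTT : T ∈ TT := by
        rw [hit, Finset.mem_filter] at hTh
        exact hTh.1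
      by_contra hcon
      push Not at hcon
      have h3 : (T ∩ nb H U v).card ≤ T.card := Finset.card_le_card Finset.inter_subset_left
      have h4 := (hT T hTT).card
      have h5 : T ∩ nb H U v = T := Finset.eq_of_subset_of_card_le Finset.inter_subset_left (by omega)
      have h6 : T ⊆ nb H U v := by
        rw [← h5]
        exact Finset.inter_subset_right
      refine hK (insert v T) (Finset.insert_subset hv (hT T hTT).sub) ?_ ?_
      · rw [Finset.card_insert_of_notMem (hvT T hTT), h4]
      · intro x hx y hy hxy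
        rcases Finset.mem_insert.mp hx with h7 | h7 <;> rcases Finset.mem_insert.mp hy with h8 | h8
        · exact absurd (h7.trans h8.symm) hxy
        · rw [h7]; exact (mem_nb.mp (h6 h8)).2
        · rw [h8]; exact (mem_nb.mp (h6 h7)).2.symm
        · exact (hT T hTT).adj x h7 y h8 hxy
    omega
  · push Not at hcov
    obtain ⟨Tv, hTv, hvTv⟩ := hcov v0 hv0
    have hT' : ∀ T ∈ TT.erase Tv, Tri H U T := fun T h' => hT T (Finset.mem_of_mem_erase h')
    have hd' : PD (TT.erase Tv) := fun T h' T' h'' =>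
      hd T (Finset.mem_of_mem_erase h') T' (Finset.mem_of_mem_erase h'')
    have hv' : ∀ T ∈ TT.erase Tv, v0 ∉ T := by
      intro T h' hvT
      exact Finset.disjoint_left.mp (hd T (Finset.mem_of_mem_erase h') Tv hTv
        (Finset.ne_of_mem_erase h')) hvT hvTv
    obtain ⟨R, hR, hp, hc⟩ := step_rem hv0 hcub hK ih (TT.erase Tv) hT' hd' hv'
    refine ⟨R, hR, hp, ?_⟩
    have hTTc : (TT.erase Tv).card + 1 = TT.card := Finset.card_erase_add_one hTv
    have hTn : Tv.erase v0 ⊆ nb H U v0 := by
      intro x hx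
      exact mem_nb.mpr ⟨(hT Tv hTv).sub (Finset.mem_of_mem_erase hx),
        (hT Tv hTv).adj v0 hvTv x (Finset.mem_of_mem_erase hx) (Finset.ne_of_mem_erase hx).symm⟩
    have hc2 : (Tv.erase v0).card = 2 := by
      rw [Finset.card_erase_of_mem hvTv, (hT Tv hTv).card]
    have hc3 : (nb H U v0).card = 3 := hcub v0 hv0
    have hc4 := Finset.card_sdiff_add_card_eq_card hTn
    have hMsub : MM H U v0 (TT.erase Tv) ⊆ nb H U v0 \ Tv.erase v0 := by
      intro m hm
      rw [MM, Finset.mem_filter] at hm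
      obtain ⟨hm1, T, hTT, hmT⟩ := hm
      refine Finset.mem_sdiff.mpr ⟨hm1, fun hm2 => ?_⟩
      exact Finset.disjoint_left.mp (hd T (Finset.mem_of_mem_erase hTT) Tv hTv
        (Finset.ne_of_mem_erase hTT)) hmT (Finset.mem_of_mem_erase hm2)
    have hM1 := Finset.card_le_card hMsub
    have hh1 : 1 ≤ (hit H v0 (TT.erase Tv)).card := by
      obtain ⟨a, ha⟩ : (nb H U v0 \ Tv.erase v0).Nonempty := by
        rw [← Finset.card_pos]; omega
      obtain ⟨ha1, ha2⟩ := Finset.mem_sdiff.mp ha
      obtain ⟨haU, hva⟩ := mem_nb.mp ha1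
      obtain ⟨Ta, hTa, haTa⟩ := hcov a haU
      refine Finset.card_pos.mpr ⟨Ta, ?_⟩
      rw [hit, Finset.mem_filter]
      refine ⟨Finset.mem_erase.mpr ⟨?_, hTa⟩, a, haTa, hva⟩
      rintro rfl
      exact ha2 (Finset.mem_erase.mpr ⟨hva.ne', haTa⟩)
    omega

end Pool.Agent.Helper93.Plz
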